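import Pool.Agent.W323.SC.Stm

/-! Project SC, part B: the product of the sum over pairs with the sum over all sets. -/

set_option autoImplicit false
open Finset
open scoped Classical

namespace Pool.Agent.W972.SC

open Pool.Agent.W323.SC

theorem dj_symm {α ι κ : Type} {a : α → ι} {b : α → κ} {p q : α} (h : dj a b p q) : dj a b q p :=
  ⟨fun e => h.1 e.symm, fun e => h.2 e.symm⟩

theorem dj_ne {α ι κ : Type} {a : α → ι} {b : α → κ} {p q : α} (h : dj a b p q) : p ≠ q :=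
  fun e => h.1 (by rw [e])

theorem sum_insert_erase {α : Type} [Fintype α] (y : α → ℝ) (u : α) (c : ℕ)
    (P : Finset α → Prop) (hP : ∀ W, u ∉ W → (P (insert u W) ↔ P W)) :
    y u * ∑ W ∈ (univ : Finset (Finset α)).filter (fun W => c ≤ W.card ∧ u ∉ W ∧ P W), w y W =
      ∑ S ∈ (univ : Finset (Finset α)).filter (fun S => c + 1 ≤ S.card ∧ u ∈ S ∧ P S), w y S := by
  rw [mul_sum]
  refine sum_bij' (fun W _ => insert u W) (fun S _ => S.erase u) ?_ ?_ ?_ ?_ ?_
  · intro W hW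
    simp only [mem_filter, mem_univ, true_and] at hW ⊢
    refine ⟨?_, mem_insert_self _ _, (hP W hW.2.1).2 hW.2.2⟩
    rw [card_insert_of_notMem hW.2.1]
    omega
  · intro S hS
    simp only [mem_filter, mem_univ, true_and] at hS ⊢
    refine ⟨?_, notMem_erase _ _, ?_⟩
    · rw [card_erase_of_mem hS.2.1]
      omega
    · have h := hP (S.erase u) (notMem_erase _ _)
      rw [insert_erase hS.2.1] at h
      exact h.1 hS.2.2
  · intro W hW
    simp only [mem_filter, mem_univ, true_and] at hW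
    exact erase_insert hW.2.1
  · intro S hS
    simp only [mem_filter, mem_univ, true_and] at hS
    exact insert_erase hS.2.1
  · intro W hW
    simp only [mem_filter, mem_univ, true_and] at hW
    unfold w
    rw [prod_insert hW.2.1]

/-- the sum over the sets with the property `P` -/
noncomputable def F {α : Type} [Fintype α] (y : α → ℝ) (P : Finset α → Prop) : ℝ :=
  ∑ W ∈ @Finset.filter _ P (Classical.decPred P) univ, w y W

theorem F_eq {α : Type} [Fintype α] (y : α → ℝ) (P : Finset α → Prop) [DecidablePred P] :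
    ∑ W ∈ (univ : Finset (Finset α)).filter P, w y W = F y P := by
  unfold F
  refine sum_congr ?_ fun _ _ => rfl
  ext W
  simp

theorem F_split {α : Type} [Fintype α] (y : α → ℝ) (P Q : Finset α → Prop) :
    F y P = F y (fun W => P W ∧ Q W) + F y (fun W => P W ∧ ¬ Q W) := by
  rw [← F_eq y P, ← F_eq y (fun W => P W ∧ Q W), ← F_eq y (fun W => P W ∧ ¬ Q W),
    ← sum_filter_add_sum_filter_not (univ.filter P) Q]
  refine congrArg₂ (· + ·) (sum_congr ?_ fun _ _ => rfl) (sum_congr ?_ fun _ _ => rfl) <;>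
    · ext W
      simp

theorem F_congr {α : Type} [Fintype α] (y : α → ℝ) (P Q : Finset α → Prop)
    (h : ∀ W, P W ↔ Q W) : F y P = F y Q := by
  have : P = Q := funext fun W => propext (h W)
  rw [this]

theorem F_insert {α : Type} [Fintype α] (y : α → ℝ) (u : α) (c : ℕ)
    (P : Finset α → Prop) (hP : ∀ W, u ∉ W → (P (insert u W) ↔ P W)) :
    y u * F y (fun W => c ≤ W.card ∧ u ∉ W ∧ P W) =
      F y (fun S => c + 1 ≤ S.card ∧ u ∈ S ∧ P S) := by
  rw [← F_eq, ← F_eq]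
  exact sum_insert_erase y u c P hP

theorem one_pair {α : Type} [Fintype α] (y : α → ℝ) (p u : α) (hpu : p ≠ u) :
    (y p * y u) * F y (fun W => 3 ≤ W.card) =
      F y (fun U => 5 ≤ U.card ∧ p ∈ U ∧ u ∈ U) +
      (y p + y u) * F y (fun S => 4 ≤ S.card ∧ p ∈ S ∧ u ∈ S) +
      (y p * y u) * F y (fun W => 3 ≤ W.card ∧ p ∈ W ∧ u ∈ W) := by
  have h0 : F y (fun W => 3 ≤ W.card) =
      F y (fun W => 3 ≤ W.card ∧ p ∈ W ∧ u ∈ W) + F y (fun W => 3 ≤ W.card ∧ u ∉ W ∧ p ∈ W) +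
      (F y (fun W => 3 ≤ W.card ∧ p ∉ W ∧ u ∈ W) + F y (fun W => 3 ≤ W.card ∧ u ∉ W ∧ p ∉ W)) := by
    rw [F_split y (fun W => 3 ≤ W.card) (fun W => p ∈ W),
      F_split y (fun W => 3 ≤ W.card ∧ p ∈ W) (fun W => u ∈ W),
      F_split y (fun W => 3 ≤ W.card ∧ ¬ p ∈ W) (fun W => u ∈ W)]
    refine congrArg₂ (· + ·) (congrArg₂ (· + ·) ?_ ?_) (congrArg₂ (· + ·) ?_ ?_) <;>
      exact F_congr y _ _ fun W => by tauto
  have h1 : y u * F y (fun W => 3 ≤ W.card ∧ u ∉ W ∧ p ∈ W) =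
      F y (fun S => 4 ≤ S.card ∧ p ∈ S ∧ u ∈ S) := by
    rw [F_insert y u 3 (fun W => p ∈ W) fun W _ => by simp [hpu]]
    exact F_congr y _ _ fun W => by tauto
  have h2 : y p * F y (fun W => 3 ≤ W.card ∧ p ∉ W ∧ u ∈ W) =
      F y (fun S => 4 ≤ S.card ∧ p ∈ S ∧ u ∈ S) := by
    rw [F_insert y p 3 (fun W => u ∈ W) fun W _ => by simp [hpu.symm]]
  have h3 : y p * (y u * F y (fun W => 3 ≤ W.card ∧ u ∉ W ∧ p ∉ W)) =
      F y (fun S => 5 ≤ S.card ∧ p ∈ S ∧ u ∈ S) := by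
    have e1 : y u * F y (fun W => 3 ≤ W.card ∧ u ∉ W ∧ p ∉ W) =
        F y (fun W => 4 ≤ W.card ∧ p ∉ W ∧ u ∈ W) := by
      rw [F_insert y u 3 (fun W => p ∉ W) fun W _ => by simp [hpu]]
      exact F_congr y _ _ fun W => by tauto
    rw [e1, F_insert y p 4 (fun W => u ∈ W) fun W _ => by simp [hpu.symm]]
  rw [h0, ← h3]
  have e2 : (y p + y u) * F y (fun S => 4 ≤ S.card ∧ p ∈ S ∧ u ∈ S) =
      y p * (y u * F y (fun W => 3 ≤ W.card ∧ u ∉ W ∧ p ∈ W)) +
      y u * (y p * F y (fun W => 3 ≤ W.card ∧ p ∉ W ∧ u ∈ W)) := by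
    rw [h1, h2]; ring
  rw [e2]
  ring

theorem one_set {α : Type} [Fintype α] (y : α → ℝ) (q : Finset α) (hq : q.card = 2) :
    w y q * (∑ W ∈ (univ : Finset (Finset α)).filter (fun W => 3 ≤ W.card), w y W) =
      (∑ U ∈ (univ : Finset (Finset α)).filter (fun U => 5 ≤ U.card ∧ q ⊆ U), w y U) +
      (∑ S ∈ (univ : Finset (Finset α)).filter (fun S => 4 ≤ S.card ∧ q ⊆ S),
        w y S * ∑ p ∈ q, y p) +
      (∑ W ∈ (univ : Finset (Finset α)).filter (fun W => 3 ≤ W.card ∧ q ⊆ W), w y W * w y q) := by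
  obtain ⟨p, u, hpu, rfl⟩ := card_eq_two.1 hq
  have h := one_pair y p u hpu
  have hw : w y {p, u} = y p * y u := by
    unfold w
    exact prod_pair hpu
  have hs : ∑ r ∈ ({p, u} : Finset α), y r = y p + y u := sum_pair hpu
  rw [hw, hs, ← sum_mul, ← sum_mul, F_eq, F_eq, F_eq, F_eq, h]
  have hc : ∀ c : ℕ, F y (fun U => c ≤ U.card ∧ ({p, u} : Finset α) ⊆ U) =
      F y (fun U => c ≤ U.card ∧ p ∈ U ∧ u ∈ U) := by
    intro c
    refine F_congr y _ _ fun U => ?_
    simp [insert_subset_iff]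
  rw [hc 5, hc 4, hc 3]
  ring

theorem mem_prs {α ι κ : Type} (a : α → ι) (b : α → κ) (U q : Finset α) :
    q ∈ prs a b U ↔ (q ⊆ U ∧ q.card = 2) ∧ nst a b q := by
  unfold prs
  rw [mem_filter, mem_powersetCard]

theorem card_gp {α ι κ : Type} (a : α → ι) (b : α → κ) (S : Finset α) (p : α) (hp : p ∈ S) :
    ((prs a b S).filter (fun q => p ∈ q)).card = gp a b S p := by
  unfold gp
  symm
  refine card_bij (fun u _ => ({p, u} : Finset α)) ?_ ?_ ?_
  · intro u hu
    rw [mem_filter] at hu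
    have hne := dj_ne hu.2
    rw [mem_filter, mem_prs]
    refine ⟨⟨⟨?_, card_pair hne⟩, ?_⟩, mem_insert_self _ _⟩
    · simp [insert_subset_iff, hp, hu.1]
    · exact ⟨p, by simp, u, by simp, hu.2⟩
  · intro u hu u' hu' h
    rw [mem_filter] at hu hu'
    have h1 : u ∈ ({p, u'} : Finset α) := by
      have : u ∈ ({p, u} : Finset α) := by simp
      exact h ▸ this
    simp only [mem_insert, mem_singleton] at h1
    rcases h1 with h1 | h1
    · exact absurd h1.symm (dj_ne hu.2)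
    · exact h1
  · intro q hq
    rw [mem_filter, mem_prs] at hq
    obtain ⟨⟨⟨hqS, hc⟩, r, hr, t, ht, hrt⟩, hpq⟩ := hq
    have hne := dj_ne hrt
    have hq2 : q = {r, t} := by
      symm
      refine eq_of_subset_of_card_le ?_ ?_
      · simp [insert_subset_iff, hr, ht]
      · rw [hc, card_pair hne]
    rw [hq2] at hpq
    simp only [mem_insert, mem_singleton] at hpq
    rcases hpq with rfl | rfl
    · exact ⟨t, mem_filter.2 ⟨hqS ht, hrt⟩, hq2.symm⟩
    · refine ⟨r, mem_filter.2 ⟨hqS hr, dj_symm hrt⟩, ?_⟩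
      rw [hq2]
      exact pair_comm _ _

theorem sb : S_B := by
  intro α ι κ _ a b _ y _
  rw [sum_mul]
  have h1 : ∀ q ∈ prs a b univ, w y q *
      (∑ S ∈ (univ : Finset (Finset α)).filter (fun S => 3 ≤ S.card), w y S) =
      (∑ U ∈ (univ : Finset (Finset α)).filter (fun U => 5 ≤ U.card ∧ q ⊆ U), w y U) +
      (∑ S ∈ (univ : Finset (Finset α)).filter (fun S => 4 ≤ S.card ∧ q ⊆ S),
        w y S * ∑ p ∈ q, y p) +
      (∑ W ∈ (univ : Finset (Finset α)).filter (fun W => 3 ≤ W.card ∧ q ⊆ W), w y W * w y q) :=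
    fun q hq => one_set y q ((mem_prs a b univ q).1 hq).1.2
  rw [sum_congr rfl h1, sum_add_distrib, sum_add_distrib]
  have hcomm : ∀ (c : ℕ) (f : Finset α → Finset α → ℝ),
      ∑ q ∈ prs a b univ, ∑ U ∈ (univ : Finset (Finset α)).filter (fun U => c ≤ U.card ∧ q ⊆ U),
        f q U = ∑ U ∈ (univ : Finset (Finset α)).filter (fun U => c ≤ U.card),
        ∑ q ∈ prs a b U, f q U := by
    intro c f
    refine sum_comm' ?_
    intro q U
    simp only [mem_prs, mem_filter, mem_univ, true_and, subset_univ]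
    tauto
  rw [hcomm 5 (fun _ U => w y U), hcomm 4 (fun q S => w y S * ∑ p ∈ q, y p),
    hcomm 3 (fun q W => w y W * w y q)]
  refine congrArg₂ (· + ·) (congrArg₂ (· + ·) ?_ ?_) ?_
  · refine sum_congr rfl fun U _ => ?_
    rw [sum_const, nsmul_eq_mul]
  · refine sum_congr rfl fun S _ => ?_
    rw [← mul_sum]
    congr 1
    have h2 : ∑ q ∈ prs a b S, ∑ p ∈ q, y p =
        ∑ p ∈ S, ∑ q ∈ (prs a b S).filter (fun q => p ∈ q), y p := by
      refine sum_comm' ?_
      intro q p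
      simp only [mem_prs, mem_filter]
      constructor
      · rintro ⟨h, hp⟩
        exact ⟨⟨h, hp⟩, h.1.1 hp⟩
      · rintro ⟨⟨h, hp⟩, _⟩
        exact ⟨h, hp⟩
    rw [h2]
    refine sum_congr rfl fun p hp => ?_
    rw [sum_const, nsmul_eq_mul, card_gp a b S p hp, mul_comm]
  · refine sum_congr rfl fun W _ => ?_
    rw [← mul_sum]

end Pool.Agent.W972.SC
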